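import Pool.Agent.Y472.H.Defs
import Pool.Agent.Y304.CB.PotN

/-!
# The potential of the ring with absolute constants (task CB3-H-POTA of helper472)
-/

set_option autoImplicit false

namespace Pool.Agent.Y484.CH

open Finset Filter Topology Metric
open Pool.Agent.W711.HT
open Pool.Agent.Y472
open Pool.Agent.Y837.CB
open Pool.Agent.Y304.CB (cauchy cauchy2)
open scoped Real

/-! ### The ring for fixed `χ` -/

lemma Sx_eq (s : ℂ → ℂ → ℂ → ℂ) {n : ℕ} (χ : ℂ) (ψ : ℕ → ℂ) :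
    Sx s n χ ψ = Sr s n (Function.update ψ n χ) := by
  unfold Sx Sr
  refine sum_congr rfl fun j hj => ?_
  have hj' := mem_range.1 hj
  have h1 : (j + 1) % n < n := Nat.mod_lt _ (by omega)
  rw [Function.update_self, Function.update_of_ne (by omega), Function.update_of_ne (by omega)]

lemma Dx_eq (s : ℂ → ℂ → ℂ → ℂ) {n j : ℕ} (hj : j < n) (χ : ℂ) (ψ : ℕ → ℂ) :
    Dx s n χ j ψ = Dr s n j (Function.update ψ n χ) := by
  unfold Dx Dr
  rw [Function.update_of_ne (by omega : j ≠ n)]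
  congr 1
  funext w
  rw [Sx_eq, Function.update_comm (by omega : j ≠ n)]

lemma Sx_congr (s : ℂ → ℂ → ℂ → ℂ) {n : ℕ} (χ : ℂ) {ψ ψ' : ℕ → ℂ} (h : ∀ i < n, ψ i = ψ' i) :
    Sx s n χ ψ = Sx s n χ ψ' := by
  unfold Sx
  refine sum_congr rfl fun j hj => ?_
  have hj' := mem_range.1 hj
  have h1 : (j + 1) % n < n := Nat.mod_lt _ (by omega)
  rw [h j (by omega), h _ h1]

lemma Dx_congr (s : ℂ → ℂ → ℂ → ℂ) {n : ℕ} (χ : ℂ) {ψ ψ' : ℕ → ℂ} (h : ∀ i < n, ψ i = ψ' i)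
    (j : ℕ) : Dx s n χ j ψ = Dx s n χ j ψ' := by
  unfold Dx
  by_cases hj : j < n
  · rw [h j hj]
    congr 1
    funext w
    apply Sx_congr
    intro i hi
    by_cases e : i = j
    · subst e; rw [Function.update_self, Function.update_self]
    · rw [Function.update_of_ne e, Function.update_of_ne e, h i hi]
  · have e1 : ∀ φ : ℕ → ℂ, (fun w => Sx s n χ (Function.update φ j w)) = fun _ => Sx s n χ φ := by
      intro φ
      funext w
      apply Sx_congr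
      intro i hi
      rw [Function.update_of_ne (by omega)]
    rw [e1, e1]
    simp

lemma mem_ext {n : ℕ} {R R' : ℝ} (hR : R' ≤ R) {ψ : ℕ → ℂ} (hψ : ψ ∈ Bx n R') {χ : ℂ}
    (hχ : χ ∈ Rc R R) : Function.update ψ n χ ∈ Bx (n + 1) R := by
  intro i hi
  by_cases e : i = n
  · subst e; rwa [Function.update_self]
  · rw [Function.update_of_ne e]; exact Rc_mono hR (hψ i (by omega))

/-! ### Differences of first derivatives -/

section sd

variable {ρ₀ c C : ℝ} {s dl : ℂ → ℂ → ℂ → ℂ}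

lemma zero_mem {ρ : ℝ} (hρ : 0 < ρ) : (0 : ℂ) ∈ Rc ρ ρ := by
  constructor <;> simpa using hρ

/-- differentiability of the first derivative in the other variable -/
lemma P1_diff (h : SD3 ρ₀ c C s dl) : ∃ r : ℝ, 0 < r ∧ r ≤ ρ₀ / 4 ∧ ∀ a ∈ Rc r r, ∀ χ ∈ Rc r r,
    DifferentiableOn ℂ (fun w => P1 dl a w χ) (Rc r r) := by
  obtain ⟨r, hr, hL⟩ := Lg_ok
  have hρ := h.hρ.1
  have hC := h.hC
  obtain ⟨t, ht, ht1, ht2⟩ : ∃ t : ℝ, 0 < t ∧ t ≤ min (ρ₀ / 4) (r / 4) ∧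
      2 * π * (C * (12 * t ^ 2)) < r := by
    have hc : ContinuousAt (fun t : ℝ => 2 * π * (C * (12 * t ^ 2))) 0 := by fun_prop
    have h1 : ∀ᶠ t : ℝ in 𝓝 0, 2 * π * (C * (12 * t ^ 2)) < r := by
      apply hc.eventually (gt_mem_nhds _)
      simpa using hr
    obtain ⟨δ, hδ, h2⟩ := Metric.eventually_nhds_iff_ball.1 h1
    refine ⟨min (δ / 2) (min (ρ₀ / 4) (r / 4)), lt_min (by positivity)
      (lt_min (by positivity) (by positivity)), min_le_right _ _, h2 _ ?_⟩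
    have h3 : 0 < min (δ / 2) (min (ρ₀ / 4) (r / 4)) := lt_min (by positivity)
      (lt_min (by positivity) (by positivity))
    rw [mem_ball, Real.dist_eq, sub_zero, abs_of_pos h3]
    have := min_le_left (δ / 2) (min (ρ₀ / 4) (r / 4))
    linarith
  have t1 : t ≤ ρ₀ / 4 := ht1.trans (min_le_left _ _)
  have t2 : t ≤ r / 4 := ht1.trans (min_le_right _ _)
  refine ⟨t, ht, t1, fun a ha χ hχ => ?_⟩
  have hs : ∀ {z : ℂ}, z ∈ Rc t t → z ∈ Rc ρ₀ ρ₀ := fun hz => Rc_mono (by linarith) hz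
  unfold P1
  apply DifferentiableOn.const_mul
  refine Lg_comp hL ?_ (differentiableOn_const _) ?_ ?_
  · exact (comp_dl h (differentiableOn_const a) differentiableOn_id (differentiableOn_const χ)
      (fun _ _ => hs ha) (fun x hx => hs hx) (fun _ _ => hs hχ)).const_mul _
  · intro x hx
    have h1 := (h.dclose a (hs ha) x (hs hx) χ (hs hχ)).2
    have na := Rc_norm ha
    have nb := Rc_norm hx
    have nc := Rc_norm hχ
    have q : ∀ {x : ℝ}, 0 ≤ x → x < 2 * t → x ^ 2 ≤ 4 * t ^ 2 := by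
      intro x hx0 hx; nlinarith
    have qa := q (norm_nonneg a) na
    have qb := q (norm_nonneg x) nb
    have qc := q (norm_nonneg χ) nc
    have h2 : ‖dl a x χ - 1 / 4‖ ≤ C * (12 * t ^ 2) := by
      refine h1.trans ?_
      apply mul_le_mul_of_nonneg_left _ hC.le
      linarith
    have e : 2 * (π : ℂ) * dl a x χ - π / 2 = 2 * (π : ℂ) * (dl a x χ - 1 / 4) := by ring
    rw [e, norm_mul, norm_mul]
    have h3 : ‖(2 : ℂ)‖ = 2 := by simp
    have h4 : ‖(π : ℂ)‖ = π := by simp [abs_of_pos Real.pi_pos]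
    rw [h3, h4]
    refine lt_of_le_of_lt ?_ ht2
    apply mul_le_mul_of_nonneg_left h2
    positivity
  · intro x _
    have := Rc_norm ha
    linarith

/-- lower bound of the kernel -/
lemma low_bd (h : SD3 ρ₀ c C s dl) : ∃ r : ℝ, 0 < r ∧ ∀ a ∈ Rc r r, ∀ b ∈ Rc r r, ∀ χ ∈ Rc r r,
    bet ≤ (s a b χ).re := by
  have hbet := Pool.Agent.Y481.bet_pos
  have hρ := h.hρ.1
  have hop : IsOpen (Rc ρ₀ ρ₀ ×ˢ Rc ρ₀ ρ₀ ×ˢ Rc ρ₀ ρ₀ : Set (ℂ × ℂ × ℂ)) :=
    (isOpen_Rc ρ₀ ρ₀).prod ((isOpen_Rc ρ₀ ρ₀).prod (isOpen_Rc ρ₀ ρ₀))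
  have h0 : ((0 : ℂ), (0 : ℂ), (0 : ℂ)) ∈ (Rc ρ₀ ρ₀ ×ˢ Rc ρ₀ ρ₀ ×ˢ Rc ρ₀ ρ₀ : Set (ℂ × ℂ × ℂ)) :=
    ⟨zero_mem hρ, zero_mem hρ, zero_mem hρ⟩
  have cs : ContinuousAt (fun p : ℂ × ℂ × ℂ => s p.1 p.2.1 p.2.2) (0, 0, 0) :=
    (h.san.differentiableAt (hop.mem_nhds h0)).continuousAt
  have n1 : ∀ᶠ p : ℂ × ℂ × ℂ in 𝓝 (0, 0, 0), bet < (s p.1 p.2.1 p.2.2).re := by
    apply (Complex.continuous_re.continuousAt.comp cs).eventually (lt_mem_nhds _)
    simp only [Function.comp]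
    rw [h.zero, Complex.ofReal_re]
    linarith
  obtain ⟨r, hr, hball⟩ := Metric.eventually_nhds_iff_ball.1 n1
  refine ⟨r / 2, by positivity, fun a ha b hb χ hχ => ?_⟩
  have na := Rc_norm ha
  have nb := Rc_norm hb
  have nc := Rc_norm hχ
  have := hball (a, b, χ) (by
    rw [mem_ball, dist_eq_norm]
    show ‖((a, b, χ) : ℂ × ℂ × ℂ) - ((0 : ℂ), (0 : ℂ), (0 : ℂ))‖ < r
    rw [Prod.mk_sub_mk, Prod.mk_sub_mk, sub_zero, sub_zero, sub_zero, Prod.norm_mk, Prod.norm_mk]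
    exact max_lt (by linarith) (max_lt (by linarith) (by linarith)))
  exact this.le

lemma s_diff1 (h : SD3 ρ₀ c C s dl) {b χ : ℂ} (hb : b ∈ Rc ρ₀ ρ₀) (hχ : χ ∈ Rc ρ₀ ρ₀) :
    DifferentiableOn ℂ (fun v => s v b χ) (Rc ρ₀ ρ₀) := fun v hv =>
  (h.sder v hv b hb χ hχ).differentiableAt.differentiableWithinAt

lemma s_P1 (h : SD3 ρ₀ c C s dl) {a b χ : ℂ} (ha : a ∈ Rc ρ₀ ρ₀) (hb : b ∈ Rc ρ₀ ρ₀)
    (hχ : χ ∈ Rc ρ₀ ρ₀) : deriv (fun v => s v b χ) a = P1 dl a b χ :=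
  (h.sder a ha b hb χ hχ).deriv

lemma P1_bd (h : SD3 ρ₀ c C s dl) {a b χ : ℂ} (ha : a ∈ Rc (ρ₀ / 2) (ρ₀ / 2)) (hb : b ∈ Rc ρ₀ ρ₀)
    (hχ : χ ∈ Rc ρ₀ ρ₀) : ‖P1 dl a b χ‖ ≤ C / (ρ₀ / 4) := by
  have hρ := h.hρ.1
  rw [← s_P1 h (Rc_mono (by linarith) ha) hb hχ]
  exact cauchy (s_diff1 h hb hχ) (fun z hz => h.sbd z hz b hb χ hχ) (by positivity) (by linarith) ha

lemma P1_bd2 (h : SD3 ρ₀ c C s dl) {a b χ : ℂ} (ha : a ∈ Rc (ρ₀ / 2) (ρ₀ / 2)) (hb : b ∈ Rc ρ₀ ρ₀)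
    (hχ : χ ∈ Rc ρ₀ ρ₀) : ‖deriv (fun v => P1 dl v b χ) a‖ ≤ C / (ρ₀ / 4) / (ρ₀ / 4) := by
  have hρ := h.hρ.1
  have ha' : a ∈ Rc ρ₀ ρ₀ := Rc_mono (by linarith) ha
  have e : (fun v => P1 dl v b χ) =ᶠ[𝓝 a] deriv (fun v => s v b χ) := by
    filter_upwards [(isOpen_Rc ρ₀ ρ₀).mem_nhds ha'] with v hv
    exact (s_P1 h hv hb hχ).symm
  rw [e.deriv_eq]
  exact cauchy2 (s_diff1 h hb hχ) (fun z hz => h.sbd z hz b hb χ hχ) (by positivity)
    (by linarith) ha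

lemma P1_zero (h : SD3 ρ₀ c C s dl) {b χ : ℂ} (hb : b ∈ Rc ρ₀ ρ₀) (hχ : χ ∈ Rc ρ₀ ρ₀) :
    P1 dl 0 b χ = 0 := by
  have hρ := h.hρ.1
  have h1 := h.sder 0 (zero_mem hρ) b hb χ hχ
  have h2 : HasDerivAt (fun v => s (-v) b χ) (-(P1 dl 0 b χ)) 0 := by
    have h3 : HasDerivAt (fun z => s z b χ) (P1 dl 0 b χ) (-0) := by
      rw [neg_zero]; exact h1
    have := HasDerivAt.comp (0 : ℂ) h3 (hasDerivAt_neg (0 : ℂ))
    simpa [Function.comp_def] using this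
  have h3 : HasDerivAt (fun v => s v b χ) (-(P1 dl 0 b χ)) 0 := by
    refine h2.congr_of_eventuallyEq ?_
    filter_upwards [(isOpen_Rc ρ₀ ρ₀).mem_nhds (zero_mem hρ)] with v hv
    exact (h.ev v hv b hb χ hχ).symm
  have h4 := h1.unique h3
  have h5 : P1 dl 0 b χ = -(P1 dl 0 b χ) := h4
  have h6 : (2 : ℂ) * P1 dl 0 b χ = 0 := by linear_combination h5
  simpa using h6

/-- the first derivative is odd, hence small near the origin -/
lemma P1_small (h : SD3 ρ₀ c C s dl) {a b χ : ℂ} (ha : a ∈ Rc (ρ₀ / 4) (ρ₀ / 4))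
    (hb : b ∈ Rc ρ₀ ρ₀) (hχ : χ ∈ Rc ρ₀ ρ₀) :
    ‖P1 dl a b χ‖ ≤ C / (ρ₀ / 4) / (ρ₀ / 4) * ‖a‖ := by
  have hρ := h.hρ.1
  have hC := h.hC
  -- the segment from `0` to `a`
  have hseg : ∀ x ∈ segment ℝ (0 : ℂ) a, x ∈ Rc (ρ₀ / 2) (ρ₀ / 2) := by
    rintro x ⟨u, v, hu, hv, huv, rfl⟩
    have hv1 : v ≤ 1 := by linarith
    have h1 := ha.1
    have h2 := ha.2
    refine ⟨?_, ?_⟩
    · simp only [smul_zero, zero_add, Complex.real_smul, Complex.re_ofReal_mul]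
      rw [abs_mul, abs_of_nonneg hv]
      have := mul_le_mul_of_nonneg_right hv1 (abs_nonneg a.re)
      linarith
    · simp only [smul_zero, zero_add, Complex.real_smul, Complex.im_ofReal_mul]
      rw [abs_mul, abs_of_nonneg hv]
      have := mul_le_mul_of_nonneg_right hv1 (abs_nonneg a.im)
      linarith
  have hd : ∀ x ∈ segment ℝ (0 : ℂ) a, DifferentiableAt ℂ (fun v => P1 dl v b χ) x := by
    intro x hx
    have hx' : x ∈ Rc ρ₀ ρ₀ := Rc_mono (by linarith) (hseg x hx)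
    have e : (fun v => P1 dl v b χ) =ᶠ[𝓝 x] deriv (fun v => s v b χ) := by
      filter_upwards [(isOpen_Rc ρ₀ ρ₀).mem_nhds hx'] with v hv
      exact (s_P1 h hv hb hχ).symm
    exact (((s_diff1 h hb hχ).deriv (isOpen_Rc ρ₀ ρ₀)).differentiableAt
      ((isOpen_Rc ρ₀ ρ₀).mem_nhds hx')).congr_of_eventuallyEq e
  have key := Convex.norm_image_sub_le_of_norm_deriv_le (𝕜 := ℂ) (f := fun v => P1 dl v b χ)
    (C := C / (ρ₀ / 4) / (ρ₀ / 4)) hd (fun x hx => P1_bd2 h (hseg x hx) hb hχ)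
    (convex_segment (0 : ℂ) a) (left_mem_segment ℝ _ _) (right_mem_segment ℝ _ _)
  simpa [P1_zero h hb hχ] using key

/-- the mixed derivative -/
lemma P1_mixed (h : SD3 ρ₀ c C s dl) {r : ℝ} (hr : 0 < r) (hrρ : r ≤ ρ₀ / 4)
    (hd : ∀ a ∈ Rc r r, ∀ χ ∈ Rc r r, DifferentiableOn ℂ (fun w => P1 dl a w χ) (Rc r r))
    {R : ℝ} (hR : R ≤ r / 2) {a b χ : ℂ} (ha : a ∈ Rc R R) (hb : b ∈ Rc R R) (hχ : χ ∈ Rc r r) :
    ‖deriv (fun w => P1 dl a w χ) b‖ ≤ C / (ρ₀ / 4) / (ρ₀ / 4) * (2 * R) / (r / 2) := by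
  have hρ := h.hρ.1
  have hC := h.hC
  have ha' : a ∈ Rc r r := Rc_mono (by linarith) ha
  refine cauchy (hd a ha' χ hχ) ?_ (by positivity) (by linarith) hb
  intro w hw
  refine (P1_small h (Rc_mono hrρ ha') (Rc_mono (by linarith) hw)
    (Rc_mono (by linarith) hχ)).trans ?_
  apply mul_le_mul_of_nonneg_left (Rc_norm ha).le
  positivity

/-! ### The partial derivatives of the ring -/

/-- the neighbour before `j` -/
def prv (n j : ℕ) : ℕ := (j + n - 1) % n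

lemma prv_lt {n j : ℕ} (hn : 2 ≤ n) : prv n j < n := Nat.mod_lt _ (by omega)

lemma prv_iff {n j k : ℕ} (hn : 2 ≤ n) (hj : j < n) (hk : k < n) : j = (k + 1) % n ↔ k = prv n j := by
  unfold prv
  constructor
  · rintro rfl
    rcases Nat.lt_or_ge (k + 1) n with h1 | h1
    · rw [Nat.mod_eq_of_lt h1]
      rw [show k + 1 + n - 1 = k + n by omega, Nat.add_mod_right, Nat.mod_eq_of_lt hk]
    · have h2 : k + 1 = n := by omega
      rw [h2, Nat.mod_self]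
      rw [show 0 + n - 1 = k by omega, Nat.mod_eq_of_lt hk]
  · rintro rfl
    rcases Nat.eq_zero_or_pos j with h1 | h1
    · subst h1
      rw [show 0 + n - 1 = n - 1 by omega, Nat.mod_eq_of_lt (by omega : n - 1 < n),
        show n - 1 + 1 = n by omega, Nat.mod_self]
    · rw [show j + n - 1 = (j - 1) + n by omega, Nat.add_mod_right,
        Nat.mod_eq_of_lt (by omega : j - 1 < n), show j - 1 + 1 = j by omega,
        Nat.mod_eq_of_lt hj]

lemma prv_ne {n j : ℕ} (hn : 2 ≤ n) (hj : j < n) : prv n j ≠ j := by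
  intro e
  have h1 := (prv_iff hn hj hj).2 e.symm
  exact succ_mod_ne hn hj h1.symm

lemma Dx_form (h : SD3 ρ₀ c C s dl) {n j : ℕ} (hn : 2 ≤ n) (hj : j < n) {χ : ℂ}
    (hχ : χ ∈ Rc ρ₀ ρ₀) {ψ : ℕ → ℂ} (hψ : ψ ∈ Bx n ρ₀) :
    Dx s n χ j ψ = P1 dl (ψ j) (ψ ((j + 1) % n)) χ + P1 dl (ψ j) (ψ (prv n j)) χ := by
  have hs : (j + 1) % n < n := Nat.mod_lt _ (by omega)
  have hp := prv_lt (j := j) hn
  rw [Dx_eq s hj, Dr_eq h hn hj.le (mem_ext le_rfl hψ hχ)]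
  have e : ∀ k ∈ range n, dt dl n j k (Function.update ψ n χ) =
      (if k = j then P1 dl (ψ j) (ψ ((j + 1) % n)) χ else 0) +
      (if k = prv n j then P1 dl (ψ j) (ψ (prv n j)) χ else 0) := by
    intro k hk
    have hk' := mem_range.1 hk
    have h1 : (k + 1) % n < n := Nat.mod_lt _ (by omega)
    rw [dt, if_neg (by omega), Function.update_self, Function.update_of_ne (by omega),
      Function.update_of_ne (by omega)]
    by_cases e1 : j = k
    · subst e1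
      rw [if_pos rfl, if_pos rfl, if_neg (prv_ne hn hj).symm, add_zero]
    · rw [if_neg e1, if_neg (Ne.symm e1), zero_add]
      by_cases e2 : j = (k + 1) % n
      · have e3 := (prv_iff hn hj hk').1 e2
        rw [if_pos e2, if_pos e3, ← e2, ← e3]
      · have e3 : k ≠ prv n j := fun e => e2 ((prv_iff hn hj hk').2 e)
        rw [if_neg e2, if_neg e3]
  rw [sum_congr rfl e, sum_add_distrib, sum_ite_eq', sum_ite_eq', if_pos (mem_range.2 hj),
    if_pos (mem_range.2 hp)]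

lemma diag_bd (h : SD3 ρ₀ c C s dl) {n j : ℕ} (hn : 2 ≤ n) (hj : j < n) {χ : ℂ}
    (hχ : χ ∈ Rc ρ₀ ρ₀) {ψ : ℕ → ℂ} (hψ : ψ ∈ Bx n (ρ₀ / 2)) :
    ‖deriv (fun w => Dx s n χ j (Function.update ψ j w)) (ψ j)‖ ≤
      2 * (C / (ρ₀ / 4) / (ρ₀ / 4)) := by
  have hρ := h.hρ.1
  have hs : (j + 1) % n < n := Nat.mod_lt _ (by omega)
  have hp := prv_lt (j := j) hn
  have hψ' : ψ ∈ Bx n ρ₀ := fun i hi => Rc_mono (by linarith) (hψ i hi)
  have e : (fun w => Dx s n χ j (Function.update ψ j w)) =ᶠ[𝓝 (ψ j)]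
      fun w => P1 dl w (ψ ((j + 1) % n)) χ + P1 dl w (ψ (prv n j)) χ := by
    filter_upwards [(isOpen_Rc ρ₀ ρ₀).mem_nhds (hψ' j hj)] with w hw
    rw [Dx_form h hn hj hχ (update_mem hψ' hw), Function.update_self,
      Function.update_of_ne (succ_mod_ne hn hj), Function.update_of_ne (prv_ne hn hj)]
  have dd : ∀ b ∈ Rc ρ₀ ρ₀, DifferentiableAt ℂ (fun w => P1 dl w b χ) (ψ j) := by
    intro b hb
    have e : (fun v => P1 dl v b χ) =ᶠ[𝓝 (ψ j)] deriv (fun v => s v b χ) := by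
      filter_upwards [(isOpen_Rc ρ₀ ρ₀).mem_nhds (hψ' j hj)] with v hv
      exact (s_P1 h hv hb hχ).symm
    exact (((s_diff1 h hb hχ).deriv (isOpen_Rc ρ₀ ρ₀)).differentiableAt
      ((isOpen_Rc ρ₀ ρ₀).mem_nhds (hψ' j hj))).congr_of_eventuallyEq e
  rw [e.deriv_eq, deriv_fun_add (dd _ (hψ' _ hs)) (dd _ (hψ' _ hp))]
  refine (norm_add_le _ _).trans ?_
  have h1 := P1_bd2 h (hψ j hj) (hψ' _ hs) hχ
  have h2 := P1_bd2 h (hψ j hj) (hψ' _ hp) hχ
  linarith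

lemma off_bd (h : SD3 ρ₀ c C s dl) {r : ℝ} (hr : 0 < r) (hrρ : r ≤ ρ₀ / 4)
    (hd : ∀ a ∈ Rc r r, ∀ χ ∈ Rc r r, DifferentiableOn ℂ (fun w => P1 dl a w χ) (Rc r r))
    {R : ℝ} (hR : R ≤ r / 2) {n j : ℕ} (hn : 2 ≤ n) (hj : j < n) {χ : ℂ}
    (hχ : χ ∈ Rc r r) {ψ : ℕ → ℂ} (hψ : ψ ∈ Bx n R) {i : ℕ} (hi : i < n) (hij : i ≠ j) :
    ‖deriv (fun w => Dx s n χ j (Function.update ψ i w)) (ψ i)‖ ≤
      (if i = (j + 1) % n then C / (ρ₀ / 4) / (ρ₀ / 4) * (2 * R) / (r / 2) else 0) +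
      (if i = prv n j then C / (ρ₀ / 4) / (ρ₀ / 4) * (2 * R) / (r / 2) else 0) := by
  have hρ := h.hρ.1
  have hC := h.hC
  have hs : (j + 1) % n < n := Nat.mod_lt _ (by omega)
  have hp := prv_lt (j := j) hn
  have hψr : ψ ∈ Bx n r := fun i hi => Rc_mono (by linarith) (hψ i hi)
  have hψ' : ψ ∈ Bx n ρ₀ := fun i hi => Rc_mono (by linarith) (hψr i hi)
  have hχ' : χ ∈ Rc ρ₀ ρ₀ := Rc_mono (by linarith) hχ
  have e : (fun w => Dx s n χ j (Function.update ψ i w)) =ᶠ[𝓝 (ψ i)]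
      fun w => P1 dl (ψ j) (Function.update ψ i w ((j + 1) % n)) χ +
        P1 dl (ψ j) (Function.update ψ i w (prv n j)) χ := by
    filter_upwards [(isOpen_Rc ρ₀ ρ₀).mem_nhds (hψ' i hi)] with w hw
    rw [Dx_form h hn hj hχ' (update_mem hψ' hw), Function.update_of_ne hij.symm]
  -- one of the two terms
  have one : ∀ k < n, DifferentiableAt ℂ (fun w => P1 dl (ψ j) (Function.update ψ i w k) χ) (ψ i) ∧
      ‖deriv (fun w => P1 dl (ψ j) (Function.update ψ i w k) χ) (ψ i)‖ ≤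
        if i = k then C / (ρ₀ / 4) / (ρ₀ / 4) * (2 * R) / (r / 2) else 0 := by
    intro k hk
    by_cases e1 : i = k
    · subst e1
      rw [if_pos rfl]
      simp only [Function.update_self]
      refine ⟨(hd _ (hψr j hj) χ hχ).differentiableAt ((isOpen_Rc r r).mem_nhds (hψr i hi)), ?_⟩
      exact P1_mixed h hr hrρ hd hR (hψ j hj) (hψ i hi) hχ
    · rw [if_neg e1]
      simp only [Function.update_of_ne (Ne.symm e1)]
      refine ⟨differentiableAt_const _, ?_⟩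
      simp
  rw [e.deriv_eq, deriv_fun_add (one _ hs).1 (one _ hp).1]
  exact (norm_add_le _ _).trans (add_le_add (one _ hs).2 (one _ hp).2)

end sd

theorem pota : Pool.Agent.Y472.S_POTA := by
  intro ρ₀ c C s dl h
  obtain ⟨R₀, c₀, hR₀, hRρ, hc₀, hP⟩ := Pool.Agent.Y837.CB.pot ρ₀ c C s dl h
  obtain ⟨r, hr, hrρ, hd⟩ := P1_diff h
  obtain ⟨r₂, hr₂, hlow⟩ := low_bd h
  have hbet := Pool.Agent.Y481.bet_pos
  have hρ := h.hρ.1
  have hC := h.hC
  set K : ℝ := C / (ρ₀ / 4) / (ρ₀ / 4) with hK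
  have K0 : 0 < K := by positivity
  set R : ℝ := min (min R₀ (r / 2)) (min r₂ (c₀ * r / (32 * K))) with hR
  have R0 : 0 < R := lt_min (lt_min hR₀ (by positivity)) (lt_min hr₂ (by positivity))
  have R1 : R ≤ R₀ := (min_le_left _ _).trans (min_le_left _ _)
  have R2 : R ≤ r / 2 := (min_le_left _ _).trans (min_le_right _ _)
  have R3 : R ≤ r₂ := (min_le_right _ _).trans (min_le_left _ _)
  have R4 : R ≤ c₀ * r / (32 * K) := (min_le_right _ _).trans (min_le_right _ _)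
  have hmix : K * (2 * R) / (r / 2) ≤ c₀ / 8 := by
    rw [div_le_iff₀ (by positivity)]
    rw [le_div_iff₀ (by positivity)] at R4
    linarith
  refine ⟨R, c₀, max (2 * (C / (ρ₀ / 4))) (2 * K), bet, R0, R1.trans hRρ, fun R' h0 hR' n hn => ?_⟩
  obtain ⟨B', hB', hPn⟩ := hP n hn
  refine ⟨B', fun χ hχ => ?_⟩
  have hn0 : (0:ℝ) < n := by exact_mod_cast (by omega : 0 < n)
  have hχ₀ : χ ∈ Rc R₀ R₀ := Rc_mono R1 hχ
  have hχρ : χ ∈ Rc ρ₀ ρ₀ := Rc_mono hRρ hχ₀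
  have hχr : χ ∈ Rc r r := Rc_mono (by linarith) hχ
  have mx : ∀ {ψ : ℕ → ℂ}, ψ ∈ Bx n R' → Function.update ψ n χ ∈ Bx (n + 1) R₀ := fun hψ =>
    mem_ext (hR'.trans R1) hψ hχ₀
  have mρ : ∀ {ψ : ℕ → ℂ}, ψ ∈ Bx n R' → ψ ∈ Bx n ρ₀ := fun hψ i hi =>
    Rc_mono (by linarith) (hψ i hi)
  have mρ2 : ∀ {ψ : ℕ → ℂ}, ψ ∈ Bx n R' → ψ ∈ Bx n (ρ₀ / 2) := fun hψ i hi =>
    Rc_mono (by linarith) (hψ i hi)
  have mR : ∀ {ψ : ℕ → ℂ}, ψ ∈ Bx n R' → ψ ∈ Bx n R := fun hψ i hi => Rc_mono hR' (hψ i hi)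
  -- extension of a point
  have hg : DifferentiableOn ℂ (fun (x : Fin n → ℂ) (i : Fin (n + 1)) =>
      if hi : (i : ℕ) < n then x ⟨i, hi⟩ else χ) (bx n R') := by
    rw [differentiableOn_pi]
    intro i
    by_cases hi : (i : ℕ) < n
    · simp only [hi, dite_true]
      fun_prop
    · simp only [hi, dite_false]
      fun_prop
  have hgm : ∀ x ∈ bx n R', (fun i : Fin (n + 1) => if hi : (i : ℕ) < n then x ⟨i, hi⟩ else χ) ∈
      bx (n + 1) R₀ := by
    intro x hx i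
    by_cases hi : (i : ℕ) < n
    · simp only [hi, dite_true]
      exact Rc_mono (hR'.trans R1) (hx _)
    · simp only [hi, dite_false]
      exact hχ₀
  have hge : ∀ x : Fin n → ℂ, ∀ i < n + 1,
      ex (n + 1) (fun i : Fin (n + 1) => if hi : (i : ℕ) < n then x ⟨i, hi⟩ else χ) i =
        Function.update (ex n x) n χ i := by
    intro x i hi
    by_cases e : i = n
    · subst e
      simp [ex]
    · have hi' : i < n := by omega
      rw [Function.update_of_ne e]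
      simp [ex, hi, hi']
  have hpot : Pot n R' c₀ B' (bet * n) (Sx s n χ) (Dx s n χ) := by
    refine
      { hR := ⟨h0, (hR'.trans R1).trans hPn.hR.2⟩
        hc := hc₀
        hB := hB'
        hp := by positivity
        dep := fun ψ ψ' he => ⟨Sx_congr s χ he, Dx_congr s χ he⟩
        an := ?_
        dan := ?_
        der := ?_
        bd := ?_
        ev := ?_
        conc := ?_
        pos := ?_ }
    · refine (hPn.an.comp hg hgm).congr fun x _ => ?_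
      rw [Sx_eq]
      exact (hPn.dep _ _ (hge x)).1.symm
    · intro j hj
      refine ((hPn.dan j (by omega)).comp hg hgm).congr fun x _ => ?_
      rw [Dx_eq s hj]
      exact ((hPn.dep _ _ (hge x)).2 j).symm
    · intro ψ hψ j hj
      have h1 := hPn.der _ (mx hψ) j (by omega)
      rw [Function.update_of_ne (by omega : j ≠ n), ← Dx_eq s hj] at h1
      refine h1.congr_of_eventuallyEq (Eventually.of_forall fun w => ?_)
      simp only
      rw [Sx_eq, Function.update_comm (by omega : j ≠ n)]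
    · intro ψ hψ
      have h1 := hPn.bd _ (mx hψ)
      refine ⟨by rw [Sx_eq]; exact h1.1, fun j hj => ?_⟩
      rw [Dx_eq s hj]
      exact h1.2 j (by omega)
    · intro ψ hψ j hj
      have h1 := hPn.ev _ (mx hψ) j (by omega)
      rw [Function.update_of_ne (by omega : j ≠ n)] at h1
      rw [Sx_eq, Sx_eq, Function.update_comm (by omega : j ≠ n)]
      exact h1
    · intro ψ hψ j hj
      have h1 := hPn.conc _ (mx hψ) j (by omega)
      rw [Function.update_of_ne (by omega : j ≠ n)] at h1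
      have e : (fun w => Dx s n χ j (Function.update ψ j w)) =
          fun w => Dr s n j (Function.update (Function.update ψ n χ) j w) := by
        funext w
        rw [Dx_eq s hj, Function.update_comm (by omega : j ≠ n)]
      rw [e]
      exact h1
    · intro ψ hψ
      have term : ∀ i ∈ range n, bet ≤ (s (ψ i) (ψ ((i + 1) % n)) χ).re := by
        intro i hi
        have hi' := mem_range.1 hi
        have h1 : (i + 1) % n < n := Nat.mod_lt _ (by omega)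
        exact hlow _ (Rc_mono (hR'.trans R3) (hψ i hi')) _ (Rc_mono (hR'.trans R3) (hψ _ h1)) _
          (Rc_mono R3 hχ)
      unfold Sx
      rw [Complex.re_sum]
      have := sum_le_sum term
      rw [sum_const, card_range, nsmul_eq_mul] at this
      linarith
  refine
    { pot := hpot
      hB := lt_max_of_lt_left (by positivity)
      hp := hbet
      dbd := ?_
      diag := ?_
      off := ?_ }
  · intro ψ hψ j hj
    have hs : (j + 1) % n < n := Nat.mod_lt _ (by omega)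
    have hp := prv_lt (j := j) hn
    rw [Dx_form h hn hj hχρ (mρ hψ)]
    refine (norm_add_le _ _).trans ?_
    have h1 := P1_bd h (mρ2 hψ j hj) (mρ hψ _ hs) hχρ
    have h2 := P1_bd h (mρ2 hψ j hj) (mρ hψ _ hp) hχρ
    have h3 := le_max_left (2 * (C / (ρ₀ / 4))) (2 * K)
    linarith
  · intro ψ hψ j hj
    exact (diag_bd h hn hj hχρ (mρ2 hψ)).trans (le_max_right _ _)
  · intro ψ hψ j hj
    have h1 : ∀ i ∈ (range n).erase j,
        ‖deriv (fun w => Dx s n χ j (Function.update ψ i w)) (ψ i)‖ ≤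
          (if i = (j + 1) % n then K * (2 * R) / (r / 2) else 0) +
          (if i = prv n j then K * (2 * R) / (r / 2) else 0) := by
      intro i hi
      obtain ⟨hij, hi'⟩ := mem_erase.1 hi
      exact off_bd h hr hrρ hd R2 hn hj hχr (mR hψ) (mem_range.1 hi') hij
    refine (sum_le_sum h1).trans ?_
    rw [sum_add_distrib, sum_ite_eq', sum_ite_eq']
    have h2 : 0 ≤ K * (2 * R) / (r / 2) := by positivity
    have h3 : ∀ p : Prop, ∀ [Decidable p], (if p then K * (2 * R) / (r / 2) else 0) ≤ c₀ / 8 := by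
      intro p _
      split_ifs
      · exact hmix
      · positivity
    have h4 := h3 ((j + 1) % n ∈ (range n).erase j)
    have h5 := h3 (prv n j ∈ (range n).erase j)
    linarith

end Pool.Agent.Y484.CH
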