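import Pool.Agent.Y843.CH.Stm

/-!
Project CH (helper843), task NUM: three numerical inequalities.
-/

set_option autoImplicit false

namespace Pool.Agent.Y484.CH

open Pool.Agent.Y843.CH

lemma log1 : (394 / 1000 : ℝ) ≤ Real.log (123794 / 83375) := by
  rw [Real.le_log_iff_exp_le (by norm_num)]
  have h := Real.exp_bound' (x := (394 / 1000 : ℝ)) (by norm_num) (by norm_num) (n := 6)
    (by norm_num)
  refine h.trans ?_
  norm_num [Finset.sum_range_succ, Nat.factorial]

lemma log2 : Real.log (908 / 667) ≤ 309 / 1000 := by
  rw [Real.log_le_iff_le_exp (by norm_num)]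
  have h := Real.sum_le_exp_of_nonneg (x := (309 / 1000 : ℝ)) (by norm_num) 6
  refine le_trans ?_ h
  norm_num [Finset.sum_range_succ, Nat.factorial]

lemma log3 : Real.log (667 / 250) ≤ 98148 / 100000 := by
  rw [Real.log_le_iff_le_exp (by norm_num)]
  have h := Real.sum_le_exp_of_nonneg (x := (98148 / 100000 : ℝ)) (by norm_num) 9
  refine le_trans ?_ h
  norm_num [Finset.sum_range_succ, Nat.factorial]

/-- NUM -/
theorem num : St_NUM := by
  refine ⟨?_, ?_, ?_⟩
  · unfold LBc
    have h1 : Real.log (123794 / 83375) =
        2 * Real.log (374 / 125) - Real.log (667 * 748 / (331 * 250)) := by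
      rw [two_mul, ← Real.log_mul (by norm_num) (by norm_num),
        ← Real.log_div (by norm_num) (by norm_num)]
      congr 1
      norm_num
    have h2 := log1
    rw [h1] at h2
    linarith
  · intro t ht1 ht2
    have h0 : (0 : ℝ) < t := by linarith
    have h1 : Real.log ((t - 667 / 1000) / (667 / 1000)) ≤
        309 / 1000 + ((t - 667 / 1000) / (908 / 1000) - 1) := by
      have e : (t - 667 / 1000) / (667 / 1000) =
          908 / 667 * ((t - 667 / 1000) / (908 / 1000)) := by
        field_simp
      have hp : 0 < (t - 667 / 1000) / (908 / 1000) := div_pos (by linarith) (by norm_num)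
      rw [e, Real.log_mul (by norm_num) hp.ne']
      exact add_le_add log2 (Real.log_le_sub_one_of_pos hp)
    rw [one_div, inv_mul_le_iff₀ h0]
    refine h1.trans ?_
    have h2 : 0 ≤ (t - 1573 / 1000) ^ 2 := sq_nonneg _
    nlinarith
  · have h := log3
    linarith

end Pool.Agent.Y484.CH
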